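import Pool.Agent.H97.PRP.Targets

/-!
Row RRD: definability of the class `RR`.
-/

set_option autoImplicit false

namespace Pool.Agent.H54.PRP

open _root_.HD HD.PRK HD.PRP
open Ordinal Cardinal Order Set
open scoped ZFSet

universe u

/-- a definable function of ordinals, as a predicate of sets -/
theorem dz_fn {t : Ordinal.{u} → Ordinal.{u} → Ordinal.{u}}
    (ht : DO fun w => w 2 = t (w 0) (w 1)) (i j k : ℕ) :
    DZ fun v => (v i).IsOrdinal ∧ (v j).IsOrdinal ∧ v k = (t (v i).rank (v j).rank).toZFSet := by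
  obtain ⟨Q, hQ, h⟩ := ht
  refine DZ.congr (P := fun v => (v i).IsOrdinal ∧ (v j).IsOrdinal ∧ (v k).IsOrdinal ∧
    Q (fun n => v (if n = 0 then i else if n = 1 then j else k)))
    ((DZ.ord i).and ((DZ.ord j).and ((DZ.ord k).and (hQ.ren _)))) fun v => ?_
  refine and_congr_right fun hi => and_congr_right fun hj => ?_
  obtain ⟨a, ha⟩ := ord_of hi
  obtain ⟨b, hb⟩ := ord_of hj
  have key : ∀ c : Ordinal.{u}, v k = c.toZFSet →
      ((c = t a b) ↔ Q (fun n => v (if n = 0 then i else if n = 1 then j else k))) := by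
    intro c hc
    have h1 := h (fun n => if n = 0 then a else if n = 1 then b else c)
    have h2 : ov (fun n => if n = 0 then a else if n = 1 then b else c) =
        fun n => v (if n = 0 then i else if n = 1 then j else k) := by
      funext n
      by_cases h0 : n = 0
      · simp [ov, h0, ha]
      · by_cases h1 : n = 1
        · simp [ov, h1, hb]
        · simp [ov, h0, h1, hc]
    rw [h2] at h1
    simpa using h1
  rw [ha, hb, rank_toZFSet, rank_toZFSet]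
  constructor
  · intro h3
    exact ⟨by rw [h3]; exact ZFSet.isOrdinal_toZFSet _, (key _ h3).1 rfl⟩
  · rintro ⟨h3, h4⟩
    obtain ⟨c, hc⟩ := ord_of h3
    rw [hc, (key c hc).2 h4]

/-- the predicate `Tt` for sets -/
def TtZ (t : Ordinal.{u} → Ordinal.{u} → Ordinal.{u}) (Q z s ξ W : ZFSet.{u}) : Prop :=
  ∃ Y w, w = insert z s ∧ ZFSet.pair w Y ∈ Q ∧ ∀ m ∈ z, (m ∈ W ↔
    ∃ x, (ξ.IsOrdinal ∧ m.IsOrdinal ∧ x = (t ξ.rank m.rank).toZFSet) ∧ x ∈ Y)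

theorem tt_iff {t : Ordinal.{u} → Ordinal.{u} → Ordinal.{u}} {Q s W : ZFSet.{u}}
    {ξ a : Ordinal.{u}} : Tt t Q s W ξ a ↔ TtZ t Q a.toZFSet s ξ.toZFSet W := by
  constructor
  · rintro ⟨Y, h1, h2⟩
    refine ⟨Y, _, rfl, h1, fun m hm => ?_⟩
    obtain ⟨m, hm', rfl⟩ := mem_toZFSet_iff.1 hm
    rw [h2 m hm', rank_toZFSet, rank_toZFSet]
    constructor
    · intro h3
      exact ⟨_, ⟨ZFSet.isOrdinal_toZFSet _, ZFSet.isOrdinal_toZFSet _, rfl⟩, h3⟩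
    · rintro ⟨x, ⟨-, -, rfl⟩, h3⟩
      exact h3
  · rintro ⟨Y, w, rfl, h1, h2⟩
    refine ⟨Y, h1, fun m hm => ?_⟩
    rw [h2 m.toZFSet (toZFSet_mem_toZFSet_iff.2 hm), rank_toZFSet, rank_toZFSet]
    constructor
    · rintro ⟨x, ⟨-, -, rfl⟩, h3⟩
      exact h3
    · intro h3
      exact ⟨_, ⟨ZFSet.isOrdinal_toZFSet _, ZFSet.isOrdinal_toZFSet _, rfl⟩, h3⟩

theorem dz_TtZ {t : Ordinal.{u} → Ordinal.{u} → Ordinal.{u}}
    (ht : DO fun w => w 2 = t (w 0) (w 1)) {Q : ZFSet.{u}} (hQ : OD Q) (i j k l : ℕ) :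
    DZ fun v => TtZ t Q (v i) (v j) (v k) (v l) := by
  refine DZ.ex (R := fun Y v => ∃ w, w = insert (v i) (v j) ∧ ZFSet.pair w Y ∈ Q ∧
    ∀ m ∈ v i, (m ∈ v l ↔ ∃ x, ((v k).IsOrdinal ∧ m.IsOrdinal ∧
      x = (t (v k).rank m.rank).toZFSet) ∧ x ∈ Y)) ?_
  refine DZ.ex (R := fun w v => w = insert (v (i + 1)) (v (j + 1)) ∧ ZFSet.pair w (v 0) ∈ Q ∧
    ∀ m ∈ v (i + 1), (m ∈ v (l + 1) ↔ ∃ x, ((v (k + 1)).IsOrdinal ∧ m.IsOrdinal ∧
      x = (t (v (k + 1)).rank m.rank).toZFSet) ∧ x ∈ v 0)) ?_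
  refine (loc_insert 0 (i + 2) (j + 2)).dz.and (DZ.and ?_ ?_)
  · exact DZ.od (R := fun q v => ZFSet.pair (v 0) (v 1) ∈ q) hQ (loc_pmem 1 2 0).dz
  · refine DZ.allMem (R := fun m v => (m ∈ v (l + 2) ↔ ∃ x, ((v (k + 2)).IsOrdinal ∧
      m.IsOrdinal ∧ x = (t (v (k + 2)).rank m.rank).toZFSet) ∧ x ∈ v 1)) (i + 2) ?_
    refine (DZ.mem 0 (l + 3)).iff ?_
    exact DZ.ex (R := fun x v => ((v (k + 3)).IsOrdinal ∧
      (v 0).IsOrdinal ∧ x = (t (v (k + 3)).rank (v 0).rank).toZFSet) ∧ x ∈ v 2)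
      ((dz_fn ht (k + 4) 1 0).and (DZ.mem 0 3))

theorem pf_RRD : HD.PRP.T_RRD.{u} := by
  intro δ κ t Q ht hQ
  have h1 : DZ fun v => ∃ M < δ, Pos M κ {a | TtZ t Q a.toZFSet (v 0) (v 1) (v 2)} := by
    refine DZ.congr (P := fun v => ∃ M ∈ δ.toZFSet, (M.IsOrdinal ∧ κ.toZFSet.IsOrdinal ∧
      Pos M.rank κ.toZFSet.rank {a | TtZ t Q a.toZFSet (v 0) (v 1) (v 2)})) ?_ fun v => ?_
    · refine DZ.od (R := fun d v => ∃ M ∈ d, (M.IsOrdinal ∧ κ.toZFSet.IsOrdinal ∧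
        Pos M.rank κ.toZFSet.rank {a | TtZ t Q a.toZFSet (v 0) (v 1) (v 2)})) (OD.ordinal δ) ?_
      refine DZ.exMem (R := fun M v => (M.IsOrdinal ∧ κ.toZFSet.IsOrdinal ∧
        Pos M.rank κ.toZFSet.rank {a | TtZ t Q a.toZFSet (v 1) (v 2) (v 3)})) 0 ?_
      refine DZ.od (R := fun k v => ((v 0).IsOrdinal ∧ k.IsOrdinal ∧
        Pos (v 0).rank k.rank {a | TtZ t Q a.toZFSet (v 2) (v 3) (v 4)})) (OD.ordinal κ) ?_
      exact NF.dz_pos (P := fun z v => TtZ t Q z (v 3) (v 4) (v 5)) 1 0 (dz_TtZ ht hQ 0 4 5 6)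
    · constructor
      · rintro ⟨M, hM, h⟩
        refine ⟨M.toZFSet, toZFSet_mem_toZFSet_iff.2 hM, ZFSet.isOrdinal_toZFSet _,
          ZFSet.isOrdinal_toZFSet _, ?_⟩
        rwa [rank_toZFSet, rank_toZFSet]
      · rintro ⟨M, hM, -, -, h⟩
        obtain ⟨M, hM', rfl⟩ := mem_toZFSet_iff.1 hM
        rw [rank_toZFSet, rank_toZFSet] at h
        exact ⟨M, hM', h⟩
  have h2 : DZ.{u} fun v => v 2 ⊆ κ.toZFSet := by
    refine DZ.od (R := fun k v => v 2 ⊆ k) (OD.ordinal κ) ?_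
    exact DZ.allMem (R := fun z v => z ∈ v 0) 3 (DZ.mem 0 1)
  refine DZ.congr (P := fun v => (v 1).IsOrdinal ∧ HOD (v 2) ∧ v 2 ⊆ κ.toZFSet ∧
    ∃ M < δ, Pos M κ {a | TtZ t Q a.toZFSet (v 0) (v 1) (v 2)})
    ((DZ.ord 1).and ((Pool.Agent.H3.HD.DM.dz_hod 2).and (h2.and h1))) fun v => ?_
  refine and_congr_right fun hi => ?_
  obtain ⟨ξ, hξ⟩ := ord_of hi
  rw [hξ, rank_toZFSet]
  have h3 : {a | Tt t Q (v 0) (v 2) ξ a} = {a | TtZ t Q a.toZFSet (v 0) ξ.toZFSet (v 2)} := by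
    ext a
    exact tt_iff
  show (HOD (v 2) ∧ v 2 ⊆ κ.toZFSet ∧ ∃ M < δ, Pos M κ {a | Tt t Q (v 0) (v 2) ξ a}) ↔ _
  rw [h3]

end Pool.Agent.H54.PRP
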